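import Pool.Agent.Lib.MP_9b4c76_pr.Main

/-!
# Ends of critical branching random walk on transitive graphs

On every connected, locally finite, vertex-transitive graph, the trace of every branching random
walk without deaths whose mean offspring number lies in `(1, 1/ρ]` almost surely has infinitely
many ends.  The critical case, mean equal to `1/ρ` with `ρ < 1`, is the question of Benjamini.

The objects are defined in `Pool.Agent.Lib.MP_9b4c76_pr.Statement`; such processes exist by
`MP_9b4c76_pr.exists_isBRW`.
-/

set_option autoImplicit false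

open MeasureTheory MP_9b4c76_pr

theorem Pool.Agent.Results.MP_9b4c76_pr.InfinitelyManyEnds.result
    {V : Type*} [Infinite V] (G : SimpleGraph V) [G.LocallyFinite] (hconn : G.Connected)
    (htrans : ∀ x y : V, ∃ φ : G ≃g G, φ x = y)
    (μ : PMF ℕ) (hμ0 : μ 0 = 0) (o : V)
    (hsuper : 1 < ∑' n, μ n * n)
    (hcrit : ∑' n, μ n * n ≤ ENNReal.ofReal (spectralRadius G o o)⁻¹)
    {Ω : Type*} [MeasurableSpace Ω] (P : Measure Ω) [IsProbabilityMeasure P]
    (N : List ℕ → Ω → ℕ) (X : List ℕ → Ω → V) (hBRW : IsBRW G μ o P N X) :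
    ∀ᵐ ω ∂P, numEnds (traceGraph (fun u => N u ω) (fun u => X u ω)) = ⊤ :=
  MP_9b4c76_pr.main G hconn htrans μ hμ0 o hsuper hcrit P N X hBRW
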